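import Mathlib

/-!
# Every pair of disjoint tiles of the square tiling tiles the plane isohedrally

The isohedral tiling is the tiling of the plane by the unit squares with centres in the integer
lattice.  Two disjoint tiles differ by an integer vector `(x, y)`; after a swap of the coordinates
`y ≠ 0`.  With `θ = (x - 1) / y` the rows of the square tiling are sheared, so that `(x, y)` becomes
the vector `1 + θ y` in a tiling whose columns alternate; the tiles made of an even column and the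
odd column next to it (and `y` rows further up) form a lattice tiling.
-/

set_option autoImplicit false

namespace Pool.Agent.Results.MP_5a5b3b_co.SquarePairs

/-- The Euclidean plane. -/
abbrev Plane : Type := EuclideanSpace ℝ (Fin 2)

/-- A countable family of closed sets covering the plane with pairwise disjoint interiors. -/
structure IsTiling (F : Set (Set Plane)) : Prop where
  countable : F.Countable
  closed : ∀ t ∈ F, IsClosed t
  cover : ⋃₀ F = Set.univ
  disjoint : ∀ t ∈ F, ∀ t' ∈ F, t ≠ t' → Disjoint (interior t) (interior t')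

/-- The isometry `g` of the plane permutes the tiles of `F`. -/
def IsSymmetry (F : Set (Set Plane)) (g : Plane ≃ᵢ Plane) : Prop :=
  (fun t => g '' t) '' F = F

/-- The symmetry group of `F` acts transitively on the tiles. -/
def Isohedral (F : Set (Set Plane)) : Prop :=
  ∀ t ∈ F, ∀ t' ∈ F, ∃ g, IsSymmetry F g ∧ g '' t = t'

/-- A closed topological disk: a set homeomorphic to the closed unit ball of the plane. -/
def IsClosedDisk (t : Set Plane) : Prop :=
  Nonempty (t ≃ₜ Metric.closedBall (0 : Plane) 1)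

/-- `P` is the prototile of an isohedral tiling: some isohedral tiling of the plane has all of its
tiles congruent to `P` (reflections allowed). -/
def TilesIsohedrally (P : Set Plane) : Prop :=
  ∃ G : Set (Set Plane), IsTiling G ∧ Isohedral G ∧ ∀ t ∈ G, ∃ g : Plane ≃ᵢ Plane, g '' P = t

/-! ### Squares -/

/-- The point with coordinates `(u, v)`. -/
noncomputable def pt (u v : ℝ) : Plane := !₂[u, v]

/-- The closed unit square with centre `c` and sides parallel to the axes. -/
def sq (c : Plane) : Set Plane := {z | |z 0 - c 0| ≤ 1 / 2 ∧ |z 1 - c 1| ≤ 1 / 2}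

@[simp] theorem pt_zero (u v : ℝ) : pt u v 0 = u := by simp [pt]
@[simp] theorem pt_one (u v : ℝ) : pt u v 1 = v := by simp [pt]

theorem ext2 {z w : Plane} (h0 : z 0 = w 0) (h1 : z 1 = w 1) : z = w := by
  ext i
  fin_cases i
  · exact h0
  · exact h1

theorem mem_sq_self (c : Plane) : c ∈ sq c := by
  simp [sq]

theorem isClosed_sq (c : Plane) : IsClosed (sq c) := by
  have h0 : Continuous fun z : Plane => |z 0 - c 0| := by fun_prop
  have h1 : Continuous fun z : Plane => |z 1 - c 1| := by fun_prop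
  exact (isClosed_le h0 continuous_const).inter (isClosed_le h1 continuous_const)

theorem convex_sq (c : Plane) : Convex ℝ (sq c) := by
  intro z hz w hw a b ha hb hab
  obtain ⟨hz0, hz1⟩ := hz
  obtain ⟨hw0, hw1⟩ := hw
  rw [abs_le] at hz0 hz1 hw0 hw1
  have e0 : (a • z + b • w) 0 = a * z 0 + b * w 0 := by simp
  have e1 : (a • z + b • w) 1 = a * z 1 + b * w 1 := by simp
  have hb' : b = 1 - a := by linarith
  constructor
  · rw [e0, abs_le]; subst hb'
    constructor <;> nlinarith
  · rw [e1, abs_le]; subst hb'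
    constructor <;> nlinarith

theorem mem_interior_sq (c : Plane) : c ∈ interior (sq c) := by
  rw [mem_interior]
  refine ⟨{z | |z 0 - c 0| < 1 / 2} ∩ {z | |z 1 - c 1| < 1 / 2}, ?_, ?_, ?_⟩
  · rintro z ⟨h0, h1⟩
    exact ⟨le_of_lt h0, le_of_lt h1⟩
  · have h0 : Continuous fun z : Plane => |z 0 - c 0| := by fun_prop
    have h1 : Continuous fun z : Plane => |z 1 - c 1| := by fun_prop
    exact (isOpen_lt h0 continuous_const).inter (isOpen_lt h1 continuous_const)
  · simp

theorem image_add (v c : Plane) : (IsometryEquiv.addRight v) '' sq c = sq (c + v) := by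
  ext z
  constructor
  · rintro ⟨w, ⟨h0, h1⟩, rfl⟩
    constructor
    · simpa using h0
    · simpa using h1
  · rintro ⟨h0, h1⟩
    refine ⟨z - v, ⟨?_, ?_⟩, by simp⟩
    · simpa [sub_sub, add_comm] using h0
    · simpa [sub_sub, add_comm] using h1

theorem interior_line (i : Fin 2) (r : ℝ) : interior {z : Plane | z i = r} = ∅ := by
  rw [Set.eq_empty_iff_forall_notMem]
  intro z hz
  rw [mem_interior_iff_mem_nhds, Metric.mem_nhds_iff] at hz
  obtain ⟨ε, hε, h⟩ := hz
  have hz0 : z i = r := h (Metric.mem_ball_self hε)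
  have h1 : z + EuclideanSpace.single i (ε / 2) ∈ Metric.ball z ε := by
    rw [Metric.mem_ball, dist_eq_norm]
    rw [add_sub_cancel_left, PiLp.norm_single, Real.norm_eq_abs]
    rw [abs_of_pos (by linarith)]
    linarith
  have h2 : (z + EuclideanSpace.single i (ε / 2)) i = r := h h1
  simp at h2
  linarith

theorem isClosed_line (i : Fin 2) (r : ℝ) : IsClosed {z : Plane | z i = r} := by
  have h0 : Continuous fun z : Plane => z i := by fun_prop
  exact isClosed_eq h0 continuous_const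

/-- centres of the sheared square tiling -/
noncomputable def C (θ : ℝ) (k j : ℤ) : Plane := pt (k + θ * j) j

theorem sq_inter_sub (θ : ℝ) {k j k' j' : ℤ} (h : (k, j) ≠ (k', j')) :
    ∃ (i : Fin 2) (r : ℝ), sq (C θ k j) ∩ sq (C θ k' j') ⊆ {z : Plane | z i = r} := by
  by_cases hj : j = j'
  · subst hj
    have hk : k ≠ k' := fun h' => h (by rw [h'])
    refine ⟨0, ((C θ k j) 0 + (C θ k' j) 0) / 2, ?_⟩
    rintro z ⟨⟨h0, _⟩, ⟨h2, _⟩⟩
    simp only [C, pt_zero] at h0 h2 ⊢
    rw [abs_le] at h0 h2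
    change z 0 = _
    rcases lt_or_gt_of_ne hk with hlt | hlt
    · have : (k : ℝ) + 1 ≤ k' := by exact_mod_cast hlt
      linarith
    · have : (k' : ℝ) + 1 ≤ k := by exact_mod_cast hlt
      linarith
  · refine ⟨1, ((C θ k j) 1 + (C θ k' j') 1) / 2, ?_⟩
    rintro z ⟨⟨_, h0⟩, ⟨_, h2⟩⟩
    simp only [C, pt_one] at h0 h2 ⊢
    rw [abs_le] at h0 h2
    change z 1 = _
    rcases lt_or_gt_of_ne hj with hlt | hlt
    · have : (j : ℝ) + 1 ≤ j' := by exact_mod_cast hlt
      linarith
    · have : (j' : ℝ) + 1 ≤ j := by exact_mod_cast hlt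
      linarith

theorem interior_union_empty {A B : Set Plane} (hA : IsClosed A) (h1 : interior A = ∅)
    (h2 : interior B = ∅) : interior (A ∪ B) = ∅ := by
  rw [interior_union_isClosed_of_interior_empty hA h2, h1]

/-- tiles of the construction -/
noncomputable def tl (θ : ℝ) (m y : ℤ) (p : ℤ × ℤ) : Set Plane :=
  sq (C θ (2 * p.1) p.2) ∪ sq (C θ (2 * p.1 + m) (p.2 + y))

theorem tl_interior (θ : ℝ) {m : ℤ} (hm : Odd m) (y : ℤ) {p p' : ℤ × ℤ} (h : p ≠ p') :
    interior (tl θ m y p ∩ tl θ m y p') = ∅ := by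
  obtain ⟨i, j⟩ := p
  obtain ⟨i', j'⟩ := p'
  have n1 : ((2 * i, j) : ℤ × ℤ) ≠ (2 * i', j') := by
    intro h'
    rw [Prod.mk.injEq] at h'
    exact h (by rw [Prod.mk.injEq]; exact ⟨by omega, h'.2⟩)
  have n2 : ((2 * i + m, j + y) : ℤ × ℤ) ≠ (2 * i' + m, j' + y) := by
    intro h'
    rw [Prod.mk.injEq] at h'
    exact h (by rw [Prod.mk.injEq]; exact ⟨by omega, by omega⟩)
  have n3 : ((2 * i, j) : ℤ × ℤ) ≠ (2 * i' + m, j' + y) := by
    intro h'
    rw [Prod.mk.injEq] at h'
    obtain ⟨k, hk⟩ := hm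
    omega
  have n4 : ((2 * i + m, j + y) : ℤ × ℤ) ≠ (2 * i', j') := by
    intro h'
    rw [Prod.mk.injEq] at h'
    obtain ⟨k, hk⟩ := hm
    omega
  obtain ⟨a1, r1, s1⟩ := sq_inter_sub θ n1
  obtain ⟨a2, r2, s2⟩ := sq_inter_sub θ n2
  obtain ⟨a3, r3, s3⟩ := sq_inter_sub θ n3
  obtain ⟨a4, r4, s4⟩ := sq_inter_sub θ n4
  have hsub : tl θ m y (i, j) ∩ tl θ m y (i', j') ⊆
      {z : Plane | z a1 = r1} ∪ ({z : Plane | z a2 = r2} ∪
        ({z : Plane | z a3 = r3} ∪ {z : Plane | z a4 = r4})) := by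
    rintro z ⟨h1 | h1, h2 | h2⟩
    · exact Or.inl (s1 ⟨h1, h2⟩)
    · exact Or.inr (Or.inr (Or.inl (s3 ⟨h1, h2⟩)))
    · exact Or.inr (Or.inr (Or.inr (s4 ⟨h1, h2⟩)))
    · exact Or.inr (Or.inl (s2 ⟨h1, h2⟩))
  have hemp := interior_union_empty (isClosed_line a1 r1) (interior_line a1 r1)
    (interior_union_empty (isClosed_line a2 r2) (interior_line a2 r2)
      (interior_union_empty (isClosed_line a3 r3) (interior_line a3 r3) (interior_line a4 r4)))
  exact Set.eq_empty_of_subset_empty (hemp ▸ interior_mono hsub)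

theorem tl_add (θ : ℝ) (m y : ℤ) (p v : ℤ × ℤ) :
    (IsometryEquiv.addRight (C θ (2 * v.1) v.2)) '' tl θ m y p = tl θ m y (p + v) := by
  rw [tl, Set.image_union, image_add, image_add, tl]
  congr 2
  · apply ext2 <;> simp [C] <;> ring
  · apply ext2 <;> simp [C] <;> ring

theorem isSymm_of (θ : ℝ) (m y : ℤ) (g : Plane ≃ᵢ Plane) (e : ℤ × ℤ → ℤ × ℤ)
    (he : Function.Surjective e) (h : ∀ p, g '' tl θ m y p = tl θ m y (e p)) :
    IsSymmetry (Set.range (tl θ m y)) g := by
  ext t
  constructor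
  · rintro ⟨_, ⟨p, rfl⟩, rfl⟩
    exact ⟨e p, (h p).symm⟩
  · rintro ⟨p, rfl⟩
    obtain ⟨q, rfl⟩ := he p
    exact ⟨tl θ m y q, ⟨q, rfl⟩, h q⟩


theorem sq_homeo (c : Plane) : IsClosedDisk (sq c) := by
  have hb : Bornology.IsBounded (sq c) := by
    rw [Metric.isBounded_iff_subset_closedBall c]
    refine ⟨1, ?_⟩
    rintro z ⟨h0, h1⟩
    rw [Metric.mem_closedBall, EuclideanSpace.dist_eq]
    rw [Real.sqrt_le_one]
    simp only [Fin.sum_univ_two, Real.dist_eq]
    rw [abs_le] at h0 h1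
    rw [sq_abs, sq_abs]
    nlinarith
  obtain ⟨h, -, h2, -⟩ := exists_homeomorph_image_interior_closure_frontier_eq_unitBall
    (convex_sq c) ⟨c, mem_interior_sq c⟩ hb
  rw [(isClosed_sq c).closure_eq] at h2
  exact ⟨(h.image (sq c)).trans (Homeomorph.setCongr h2)⟩

theorem construction (y : ℤ) (θ : ℝ) (m : ℤ) (hm : Odd m) :
    IsTiling (Set.range (tl θ m y)) ∧ Isohedral (Set.range (tl θ m y)) := by
  have htrans : ∀ v : ℤ × ℤ, IsSymmetry (Set.range (tl θ m y))
      (IsometryEquiv.addRight (C θ (2 * v.1) v.2)) := by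
    intro v
    apply isSymm_of θ m y _ (fun p => p + v) (fun p => ⟨p - v, by simp⟩)
    intro p
    exact tl_add θ m y p v
  refine ⟨⟨Set.countable_range _, ?_, ?_, ?_⟩, ?_⟩
  · rintro _ ⟨p, rfl⟩
    exact (isClosed_sq _).union (isClosed_sq _)
  · rw [Set.eq_univ_iff_forall]
    intro z
    set j := round (z 1) with hj
    set k := round (z 0 - θ * j) with hk
    have h1 : |z 1 - j| ≤ 1 / 2 := abs_sub_round _
    have h0 : |z 0 - θ * j - k| ≤ 1 / 2 := abs_sub_round _
    have hz : z ∈ sq (C θ k j) := by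
      constructor
      · simp only [C, pt_zero]
        have : z 0 - (k + θ * j) = z 0 - θ * j - k := by ring
        rw [this]; exact h0
      · simpa [C] using h1
    rcases Int.even_or_odd k with ⟨i, hi⟩ | hodd
    · refine ⟨tl θ m y (i, j), ⟨(i, j), rfl⟩, Or.inl ?_⟩
      have : 2 * i = k := by omega
      simp only [this]
      exact hz
    · obtain ⟨i, hi⟩ := hodd.sub_odd hm
      refine ⟨tl θ m y (i, j - y), ⟨(i, j - y), rfl⟩, Or.inr ?_⟩
      have h3 : 2 * i + m = k := by omega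
      have h4 : j - y + y = j := by omega
      simp only [h3, h4]
      exact hz
  · rintro _ ⟨p, rfl⟩ _ ⟨p', rfl⟩ hne
    have hpp : p ≠ p' := fun h => hne (by rw [h])
    rw [Set.disjoint_iff_inter_eq_empty, ← interior_inter]
    exact tl_interior θ hm y hpp
  · rintro _ ⟨p, rfl⟩ _ ⟨p', rfl⟩
    refine ⟨IsometryEquiv.addRight (C θ (2 * (p' - p).1) (p' - p).2), htrans (p' - p), ?_⟩
    rw [tl_add]
    congr 1
    abel

/-- If the vector between the centres is `(x, y)` with `y ≠ 0` integers, the pair of squares tiles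
isohedrally. -/
theorem pair_tiles (c d : Plane) (x y : ℤ) (hy : y ≠ 0) (h0 : d 0 = c 0 + x) (h1 : d 1 = c 1 + y) :
    TilesIsohedrally (sq c ∪ sq d) := by
  have hy' : (y : ℝ) ≠ 0 := by exact_mod_cast hy
  obtain ⟨hT, hI⟩ := construction y ((x - 1) / y) 1 odd_one
  refine ⟨_, hT, hI, ?_⟩
  rintro _ ⟨p, rfl⟩
  refine ⟨IsometryEquiv.addRight (C ((x - 1) / y) (2 * p.1) p.2 - c), ?_⟩
  rw [Set.image_union, image_add, image_add, tl]
  congr 2
  · apply ext2 <;> simp
  · apply ext2
    · simp [C, h0]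
      field_simp
      ring
    · simp [C, h1]; ring

/-- The reflection exchanging the two coordinates. -/
noncomputable def swp : Plane ≃ᵢ Plane :=
  (LinearIsometryEquiv.piLpCongrLeft 2 ℝ ℝ (Equiv.swap (0 : Fin 2) 1)).toIsometryEquiv

theorem swp_zero (z : Plane) : (swp z) 0 = z 1 := by
  simp [swp, LinearIsometryEquiv.piLpCongrLeft_apply, Equiv.piCongrLeft']

theorem swp_one (z : Plane) : (swp z) 1 = z 0 := by
  simp [swp, LinearIsometryEquiv.piLpCongrLeft_apply, Equiv.piCongrLeft']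

theorem swp_swp (z : Plane) : swp (swp z) = z := by
  apply ext2
  · rw [swp_zero, swp_one]
  · rw [swp_one, swp_zero]

theorem image_swp (c : Plane) : swp '' sq c = sq (swp c) := by
  ext z
  constructor
  · rintro ⟨w, ⟨h0, h1⟩, rfl⟩
    refine ⟨?_, ?_⟩
    · rw [swp_zero, swp_zero]; exact h1
    · rw [swp_one, swp_one]; exact h0
  · rintro ⟨h0, h1⟩
    refine ⟨swp z, ⟨?_, ?_⟩, swp_swp z⟩
    · rw [swp_zero]; rw [swp_one] at h1; exact h1
    · rw [swp_one]; rw [swp_zero] at h0; exact h0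

theorem tiles_of_image {P : Set Plane} (h : Plane ≃ᵢ Plane) (hP : TilesIsohedrally (h '' P)) :
    TilesIsohedrally P := by
  obtain ⟨G, hT, hI, hc⟩ := hP
  refine ⟨G, hT, hI, ?_⟩
  intro t ht
  obtain ⟨g, hg⟩ := hc t ht
  refine ⟨h.trans g, ?_⟩
  rw [← hg, Set.image_image]
  rfl

/-- The answer to Q1 is yes: the tiling by unit squares centred at the points of the integer
lattice is an isohedral tiling by closed topological disks in which the union of every two disjoint
tiles is the prototile of an isohedral tiling. -/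
theorem result : ∃ F : Set (Set Plane), IsTiling F ∧ Isohedral F ∧ (∀ t ∈ F, IsClosedDisk t) ∧
    ∀ T₁ ∈ F, ∀ T₂ ∈ F, Disjoint T₁ T₂ → TilesIsohedrally (T₁ ∪ T₂) := by
  refine ⟨Set.range fun p : ℤ × ℤ => sq (C 0 p.1 p.2), ⟨Set.countable_range _, ?_, ?_, ?_⟩,
    ?_, ?_, ?_⟩
  · rintro _ ⟨p, rfl⟩
    exact isClosed_sq _
  · rw [Set.eq_univ_iff_forall]
    intro z
    refine ⟨sq (C 0 (round (z 0)) (round (z 1))), ⟨(round (z 0), round (z 1)), rfl⟩, ?_, ?_⟩
    · simpa [C] using abs_sub_round (z 0)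
    · simpa [C] using abs_sub_round (z 1)
  · rintro _ ⟨p, rfl⟩ _ ⟨p', rfl⟩ hne
    have hpp : (p.1, p.2) ≠ (p'.1, p'.2) := fun h => hne (by
      rw [Prod.mk.injEq] at h
      simp only [h.1, h.2])
    obtain ⟨i, r, hir⟩ := sq_inter_sub 0 hpp
    rw [Set.disjoint_iff_inter_eq_empty, ← interior_inter]
    exact Set.eq_empty_of_subset_empty (interior_line i r ▸ interior_mono hir)
  · rintro _ ⟨p, rfl⟩ _ ⟨p', rfl⟩
    have key : ∀ q : ℤ × ℤ, (IsometryEquiv.addRight (C 0 (p'.1 - p.1) (p'.2 - p.2))) ''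
        sq (C 0 q.1 q.2) = sq (C 0 (q.1 + (p'.1 - p.1)) (q.2 + (p'.2 - p.2))) := by
      intro q
      rw [image_add]
      congr 1
      apply ext2 <;> simp [C]
    refine ⟨IsometryEquiv.addRight (C 0 (p'.1 - p.1) (p'.2 - p.2)), ?_, ?_⟩
    · ext t
      constructor
      · rintro ⟨_, ⟨q, rfl⟩, rfl⟩
        exact ⟨(q.1 + (p'.1 - p.1), q.2 + (p'.2 - p.2)), (key q).symm⟩
      · rintro ⟨q, rfl⟩
        refine ⟨sq (C 0 (q.1 - (p'.1 - p.1)) (q.2 - (p'.2 - p.2))),
          ⟨(q.1 - (p'.1 - p.1), q.2 - (p'.2 - p.2)), rfl⟩, ?_⟩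
        have := key (q.1 - (p'.1 - p.1), q.2 - (p'.2 - p.2))
        simp only [sub_add_cancel] at this
        exact this
    · have := key p
      simp only [add_sub_cancel] at this
      exact this
  · rintro _ ⟨p, rfl⟩
    exact sq_homeo _
  · rintro _ ⟨p, rfl⟩ _ ⟨p', rfl⟩ hd
    by_cases hy : p'.2 - p.2 = 0
    · have hx : p'.1 - p.1 ≠ 0 := by
        intro hx
        have e1 : p' = p := Prod.ext (by omega) (by omega)
        subst e1
        exact Set.disjoint_left.1 hd (mem_sq_self _) (mem_sq_self _)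
      apply tiles_of_image swp
      rw [Set.image_union, image_swp, image_swp]
      apply pair_tiles _ _ (p'.2 - p.2) (p'.1 - p.1) hx
      · rw [swp_zero, swp_zero]; simp [C]
      · rw [swp_one, swp_one]; simp [C]
    · apply pair_tiles _ _ (p'.1 - p.1) (p'.2 - p.2) hy
      · simp [C]
      · simp [C]

end Pool.Agent.Results.MP_5a5b3b_co.SquarePairs
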